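import Mathlib

set_option autoImplicit false
open MvPolynomial

namespace Pool.Agent.H.MP_7742c6_al

lemma per_succ_col {n : ℕ} (A : Matrix (Fin (n + 1)) (Fin (n + 1)) ℂ) :
    A.permanent = ∑ i : Fin (n + 1), A i 0 * (A.submatrix i.succAbove Fin.succ).permanent := by
  rw [Matrix.permanent, Finset.univ_perm_fin_succ, ← Finset.univ_product_univ]
  simp only [Finset.sum_map, Equiv.toEmbedding_apply, Finset.sum_product]
  refine Finset.sum_congr rfl fun i _ => Fin.cases ?_ (fun i => ?_) i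
  · simp [Fin.prod_univ_succ, Matrix.permanent, Finset.mul_sum]
  · have := Matrix.permanent_permute_cols i.cycleRange (A.submatrix i.succ.succAbove Fin.succ)
    rw [← this, Matrix.permanent, Finset.mul_sum]
    refine Finset.sum_congr rfl fun σ _ => ?_
    simp only [Fin.prod_univ_succ, Fin.succAbove_cycleRange, Matrix.submatrix_apply, id,
      Equiv.Perm.decomposeFin_symm_apply_zero, Equiv.Perm.decomposeFin_symm_apply_succ]

variable {σ : Type} [Fintype σ] [DecidableEq σ]

def fw (α : σ →₀ ℕ) : ℕ := ∏ i, (α i).factorial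

lemma fw_add (i : σ) (α : σ →₀ ℕ) : fw (Finsupp.single i 1 + α) = (α i + 1) * fw α := by
  unfold fw
  rw [← Finset.mul_prod_erase _ _ (Finset.mem_univ i),
    ← Finset.mul_prod_erase _ (fun i => (α i).factorial) (Finset.mem_univ i), ← mul_assoc]
  congr 1
  · simp [add_comm 1, Nat.factorial_succ]
  · refine Finset.prod_congr rfl fun j hj => ?_
    simp [Finsupp.single_eq_of_ne (Finset.ne_of_mem_erase hj)]

noncomputable def Bil (p q : MvPolynomial σ ℂ) : ℂ :=
  ∑ α ∈ p.support, fw α * coeff α p * coeff α q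

lemma Bil_eq (p q : MvPolynomial σ ℂ) (s : Finset (σ →₀ ℕ)) (hs : p.support ⊆ s) :
    Bil p q = ∑ α ∈ s, fw α * coeff α p * coeff α q :=
  Finset.sum_subset hs fun α _ h => by simp [notMem_support_iff.1 h]

lemma Bil_comm (p q : MvPolynomial σ ℂ) : Bil p q = Bil q p := by
  rw [Bil_eq p q (p.support ∪ q.support) Finset.subset_union_left,
    Bil_eq q p (p.support ∪ q.support) Finset.subset_union_right]
  exact Finset.sum_congr rfl fun _ _ => by ring

lemma Bil_add (p q r : MvPolynomial σ ℂ) : Bil p (q + r) = Bil p q + Bil p r := by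
  simp [Bil, mul_add, Finset.sum_add_distrib]

lemma Bil_C (p q : MvPolynomial σ ℂ) (c : ℂ) : Bil p (C c * q) = c * Bil p q := by
  simp only [Bil, coeff_C_mul, Finset.mul_sum]
  exact Finset.sum_congr rfl fun _ _ => by ring

lemma Bil_sum {ι : Type} (s : Finset ι) (p : MvPolynomial σ ℂ) (q : ι → MvPolynomial σ ℂ) :
    Bil p (∑ i ∈ s, q i) = ∑ i ∈ s, Bil p (q i) := by
  simp only [Bil, coeff_sum, Finset.mul_sum]
  exact Finset.sum_comm

lemma Bil_X (p q : MvPolynomial σ ℂ) (i : σ) : Bil q (X i * p) = Bil (pderiv i q) p := by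
  rw [Bil_comm, Bil_comm _ p, Bil, Bil, support_X_mul, Finset.sum_map]
  refine Finset.sum_congr rfl fun α _ => ?_
  simp only [addLeftEmbedding_apply, coeff_X_mul, coeff_pderiv, fw_add, add_comm α]
  push_cast; ring

noncomputable def L (u : σ → ℂ) : MvPolynomial σ ℂ := ∑ k, C (u k) * X k

lemma pderiv_L (u : σ → ℂ) (k : σ) : pderiv k (L u) = C (u k) := by
  simp [L, pderiv_X, Pi.single_apply]

lemma pderiv_prod (k : σ) : ∀ (n : ℕ) (f : Fin (n + 1) → MvPolynomial σ ℂ),
    pderiv k (∏ j, f j) = ∑ j, pderiv k (f j) * ∏ i : Fin n, f (j.succAbove i) := by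
  intro n
  induction n with
  | zero => intro f; simp
  | succ n ih =>
    intro f
    rw [Fin.prod_univ_succ, Derivation.leibniz, ih, Fin.sum_univ_succ (n := n + 1), smul_eq_mul,
      smul_eq_mul, Finset.mul_sum, add_comm]
    congr 1
    · simp [mul_comm]
    · refine Finset.sum_congr rfl fun j _ => ?_
      rw [Fin.prod_univ_succ]
      simp only [Fin.succ_succAbove_zero, Fin.succ_succAbove_succ]
      ring

lemma Bil_prod : ∀ (n : ℕ) (u w : Fin n → σ → ℂ),
    Bil (∏ i, L (u i)) (∏ j, L (w j)) = (Matrix.of fun i j => ∑ k, u i k * w j k).permanent := by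
  intro n
  induction n with
  | zero => intro u w; simp [Bil, fw, support_one, Matrix.permanent_isEmpty]
  | succ n ih =>
    intro u w
    rw [per_succ_col, Fin.prod_univ_succ (fun j => L (w j)), L, Finset.sum_mul, Bil_sum]
    simp only [mul_assoc, Bil_C, Bil_X, pderiv_prod, pderiv_L]
    simp only [Bil_comm _ (∏ i : Fin n, L (w i.succ)), Bil_sum, Bil_C, Finset.mul_sum]
    rw [Finset.sum_comm]
    refine Finset.sum_congr rfl fun i _ => ?_
    rw [Bil_comm, ih, Matrix.of_apply, Finset.sum_mul]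
    refine Finset.sum_congr rfl fun k _ => ?_
    rw [← mul_assoc, mul_comm (w 0 k)]
    rfl

noncomputable def H (p q : MvPolynomial σ ℂ) : ℂ := Bil (map (starRingEnd ℂ) p) q

lemma H_add_right (p q r : MvPolynomial σ ℂ) : H p (q + r) = H p q + H p r := Bil_add _ _ _
lemma H_C_right (p q : MvPolynomial σ ℂ) (c : ℂ) : H p (C c * q) = c * H p q := Bil_C _ _ _
lemma H_add_left (p q r : MvPolynomial σ ℂ) : H (p + q) r = H p r + H q r := by
  simp only [H, map_add, Bil_comm _ r, Bil_add]
lemma H_C_left (p q : MvPolynomial σ ℂ) (c : ℂ) : H (C c * p) q = starRingEnd ℂ c * H p q := by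
  simp only [H, map_mul, map_C, Bil_comm _ q, Bil_C]

lemma H_prod (n : ℕ) (u w : Fin n → σ → ℂ) :
    H (∏ i, L (u i)) (∏ j, L (w j))
      = (Matrix.of fun i j => ∑ k, starRingEnd ℂ (u i k) * w j k).permanent := by
  rw [← Bil_prod, H, map_prod]
  simp [L]

noncomputable def Nw (w : (σ →₀ ℕ) → ℝ) (p : MvPolynomial σ ℂ) : ℝ :=
  ∑ α ∈ p.support, w α * Complex.normSq (coeff α p)

omit [Fintype σ] [DecidableEq σ] in
lemma Nw_eq (w : (σ →₀ ℕ) → ℝ) (p : MvPolynomial σ ℂ) (s : Finset (σ →₀ ℕ))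
    (hs : p.support ⊆ s) : Nw w p = ∑ α ∈ s, w α * Complex.normSq (coeff α p) :=
  Finset.sum_subset hs fun α _ h => by simp [notMem_support_iff.1 h]

omit [Fintype σ] [DecidableEq σ] in
lemma Nw_X (w : (σ →₀ ℕ) → ℝ) (p : MvPolynomial σ ℂ) (i : σ) :
    Nw w (X i * p) = Nw (fun α => w (Finsupp.single i 1 + α)) p := by
  rw [Nw, Nw, support_X_mul, Finset.sum_map]
  simp only [addLeftEmbedding_apply, coeff_X_mul]

lemma H_self (p : MvPolynomial σ ℂ) : H p p = Nw (fun α => fw α) p := by
  rw [H, Bil_eq _ _ p.support (support_map_subset _ _), Nw]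
  push_cast
  refine Finset.sum_congr rfl fun α _ => ?_
  rw [coeff_map, Complex.normSq_eq_conj_mul_self, mul_assoc]

end Pool.Agent.H.MP_7742c6_al
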