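import Pool.Agent.H.MP_7742c6_al.Fock

set_option autoImplicit false
open MvPolynomial
open scoped ComplexOrder MatrixOrder

namespace Pool.Agent.H.MP_7742c6_al

lemma pt (a b x y : ℂ) (l m : ℝ) (hl : 0 ≤ l) (hm : 0 ≤ m)
    (h : x = 0 ∨ y = 0 ∨ l * m = Complex.normSq a * Complex.normSq b) :
    (Complex.normSq a - m) * Complex.normSq x + (Complex.normSq b - l) * Complex.normSq y
      ≤ Complex.normSq (a * x + b * y) := by
  have hx := Complex.normSq_nonneg x
  have hy := Complex.normSq_nonneg y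
  rcases h with rfl | rfl | h
  · simp only [mul_zero, zero_add, map_zero, map_mul]; nlinarith
  · simp only [mul_zero, add_zero, map_zero, map_mul]; nlinarith
  · rw [Complex.normSq_add, map_mul, map_mul]
    have h1 : |(a * x * starRingEnd ℂ (b * y)).re| ≤ ‖a * x * starRingEnd ℂ (b * y)‖ :=
      Complex.abs_re_le_norm _
    set t := (a * x * starRingEnd ℂ (b * y)).re
    have h2 : t ^ 2 ≤ (m * Complex.normSq x) * (l * Complex.normSq y) := by
      have := sq_le_sq' (by linarith [norm_nonneg (a * x * starRingEnd ℂ (b * y)), abs_nonneg t])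
        h1
      rw [sq_abs, ← Complex.normSq_eq_norm_sq, map_mul, map_mul, Complex.normSq_conj,
        map_mul] at this
      calc t ^ 2 ≤ _ := this
        _ = (Complex.normSq a * Complex.normSq b) * (Complex.normSq x * Complex.normSq y) := by ring
        _ = _ := by rw [← h]; ring
    have h3 : -(m * Complex.normSq x + l * Complex.normSq y) ≤ 2 * t := by
      have hu := mul_nonneg hm hx
      have hv := mul_nonneg hl hy
      apply neg_le_of_abs_le
      apply abs_le_of_sq_le_sq _ (by linarith)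
      nlinarith [sq_nonneg (m * Complex.normSq x - l * Complex.normSq y)]
    nlinarith

noncomputable def g (A B : ℝ) (i j : ℕ) : ℝ :=
  if i ≤ 1 then 0 else if ((i : ℝ) + j - 2) * B ≤ 12 * A then i + 1
  else if i = 2 then 4 else if i = 3 then 9 / 2 else if i = 4 then 51 / 10 else i + 1

lemma g_nonneg (A B : ℝ) (i j : ℕ) : 0 ≤ g A B i j := by
  unfold g; split_ifs <;> positivity

lemma g_pos (A B : ℝ) (i j : ℕ) (hi : ¬ i ≤ 1) : 0 < g A B i j := by
  unfold g; rw [if_neg hi]; split_ifs <;> positivity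

lemma wt (A B : ℝ) (hA : 0 ≤ A) (hB : 0 ≤ B) (k l : ℕ) :
    B * (k + 1) + B * (l + 1) ≤ 2 * (((k : ℝ) + 2) * (k + 1) * (A - B * l / g A B (k + 2) l)
      + ((k : ℝ) + 1) * (l + 1) * (B - A * g A B (k + 1) (l + 1) / (l + 1))) := by
  have hl : (0 : ℝ) ≤ l := Nat.cast_nonneg l
  have e : ((k : ℝ) + 1) * (l + 1) * (B - A * g A B (k + 1) (l + 1) / (l + 1))
      = (k + 1) * ((l + 1) * B - A * g A B (k + 1) (l + 1)) := by field_simp
  rw [e]
  have hBl := mul_nonneg hB hl
  have gen : ∀ k : ℕ, 1 ≤ k → B * (k + 1) + B * (l + 1) ≤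
      2 * (((k : ℝ) + 2) * (k + 1) * (A - B * l / (k + 3)) + (k + 1) * ((l + 1) * B - A * (k + 2))) := by
    intro k hk
    have hk' : (1 : ℝ) ≤ k := by exact_mod_cast hk
    have e2 : 2 * (((k : ℝ) + 2) * (k + 1) * (A - B * l / (k + 3))
        + (k + 1) * ((l + 1) * B - A * (k + 2))) = 2 * (k + 1) * B * (k + 3 + l) / (k + 3) := by
      field_simp; ring
    rw [e2, le_div_iff₀ (by positivity)]
    nlinarith [mul_nonneg hB (sub_nonneg.2 hk'), mul_nonneg hBl (sub_nonneg.2 hk'),
      mul_nonneg (mul_nonneg hB (sub_nonneg.2 hk')) (sub_nonneg.2 hk')]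
  by_cases hc : ((k : ℝ) + l) * B ≤ 12 * A
  · have g1 : g A B (k + 2) l = k + 3 := by
      unfold g
      rw [if_neg (by omega), if_pos (by push_cast; linarith)]; push_cast; ring
    rw [g1]
    rcases Nat.eq_zero_or_pos k with rfl | hk
    · simp only [g, zero_add, le_refl, if_true, Nat.cast_zero] at hc ⊢
      nlinarith
    · have g2 : g A B (k + 1) (l + 1) = k + 2 := by
        unfold g
        rw [if_neg (by omega), if_pos (by push_cast; linarith)]; push_cast; ring
      rw [g2]; exact gen k hk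
  · have c1 : ¬ (((k + 2 : ℕ) : ℝ) + l - 2) * B ≤ 12 * A := by push_cast; intro h; apply hc; linarith
    have c2 : ¬ (((k + 1 : ℕ) : ℝ) + (l + 1 : ℕ) - 2) * B ≤ 12 * A := by
      push_cast; intro h; apply hc; linarith
    unfold g
    rw [if_neg c1, if_neg c2]
    push Not at hc
    rcases k with _ | _ | _ | _ | k
    · norm_num at hc ⊢; nlinarith
    · norm_num at hc ⊢; nlinarith
    · norm_num at hc ⊢; nlinarith
    · norm_num at hc ⊢; nlinarith
    · rw [if_neg (by omega), if_neg (by omega), if_neg (by omega), if_neg (by omega),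
        if_neg (by omega), if_neg (by omega), if_neg (by omega), if_neg (by omega)]
      have := gen (k + 1 + 1 + 1 + 1) (by omega)
      convert this using 5 <;> push_cast <;> ring

variable {σ : Type} [Fintype σ] [DecidableEq σ]

lemma main_ineq (i0 i1 : σ) (hne : i0 ≠ i1) (a b : ℂ) (P : MvPolynomial σ ℂ) :
    Complex.normSq b * (Nw (fun α => fw α) (X i0 * P) + Nw (fun α => fw α) (X i1 * P))
      ≤ 2 * Nw (fun α => fw α) (C a * (X i0 * (X i0 * P)) + C b * (X i0 * (X i1 * P))) := by
  set A := Complex.normSq a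
  set B := Complex.normSq b
  have hA : 0 ≤ A := Complex.normSq_nonneg a
  have hB : 0 ≤ B := Complex.normSq_nonneg b
  set U := X i0 * (X i0 * P) with hU
  set V := X i0 * (X i1 * P) with hV
  have h1 : Nw (fun γ => fw γ * (A - B * γ i1 / g A B (γ i0) (γ i1))) U
      + Nw (fun γ => fw γ * (B - A * g A B (γ i0) (γ i1) / γ i1)) V
      ≤ Nw (fun α => fw α) (C a * U + C b * V) := by
    set s := U.support ∪ V.support ∪ (C a * U + C b * V).support
    rw [Nw_eq _ U s (by intro x hx; simp only [s, Finset.mem_union]; tauto),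
      Nw_eq _ V s (by intro x hx; simp only [s, Finset.mem_union]; tauto),
      Nw_eq _ _ s Finset.subset_union_right, ← Finset.sum_add_distrib]
    refine Finset.sum_le_sum fun γ _ => ?_
    rw [mul_assoc, mul_assoc, ← mul_add, coeff_add, coeff_C_mul, coeff_C_mul]
    refine mul_le_mul_of_nonneg_left ?_ (Nat.cast_nonneg _)
    have hg := g_nonneg A B (γ i0) (γ i1)
    apply pt
    · positivity
    · positivity
    · by_cases h0 : γ i0 ≤ 1
      · left
        rw [hU, coeff_X_mul']
        split_ifs with h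
        · rw [coeff_X_mul', if_neg]
          simp only [Finsupp.mem_support_iff, Finsupp.coe_tsub, Pi.sub_apply,
            Finsupp.single_eq_same]
          omega
        · rfl
      · by_cases h1 : γ i1 = 0
        · right; left
          rw [hV, mul_left_comm, coeff_X_mul', if_neg]
          simp [h1]
        · right; right
          have := g_pos A B (γ i0) (γ i1) h0
          have h2 : (γ i1 : ℝ) ≠ 0 := Nat.cast_ne_zero.2 h1
          field_simp
          ring
  refine le_trans ?_ (mul_le_mul_of_nonneg_left h1 (by norm_num))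
  rw [hU, hV]
  simp only [Nw_X]
  simp only [Nw, ← Finset.sum_add_distrib, Finset.mul_sum]
  refine Finset.sum_le_sum fun α _ => ?_
  rw [← add_mul, ← add_mul, ← mul_assoc, ← mul_assoc]
  refine mul_le_mul_of_nonneg_right ?_ (Complex.normSq_nonneg _)
  simp only [fw_add, Finsupp.coe_add, Pi.add_apply, Finsupp.single_eq_same,
    Finsupp.single_eq_of_ne hne, Finsupp.single_eq_of_ne hne.symm, zero_add]
  have := mul_le_mul_of_nonneg_left (wt A B hA hB (α i0) (α i1)) (Nat.cast_nonneg (α := ℝ) (fw α))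
  rw [show 1 + (1 + α i0) = α i0 + 2 by ring, add_comm 1 (α i0), add_comm 1 (α i1)]
  push_cast
  convert this using 1 <;> ring

lemma exists_R (n : ℕ) (A : Matrix (Fin n) (Fin n) ℂ) (hA : A.PosSemidef) :
    ∃ R : Fin n → Fin n → ℂ, (∀ i j, i < j → R i j = 0) ∧
      ∀ i j, A i j = ∑ k, starRingEnd ℂ (R i k) * R j k := by
  obtain ⟨B, rfl⟩ := CStarAlgebra.nonneg_iff_eq_star_mul_self.mp hA.nonneg
  let f : Fin n → EuclideanSpace ℂ (Fin n) := fun j => WithLp.toLp 2 fun i => B i j
  have h : Module.finrank ℂ (EuclideanSpace ℂ (Fin n)) = Fintype.card (Fin n) := by simp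
  let b := InnerProductSpace.gramSchmidtOrthonormalBasis h f
  refine ⟨fun i k => inner ℂ (b k) (f i), fun i j hij =>
    InnerProductSpace.gramSchmidtOrthonormalBasis_inv_triangular h f hij, fun i j => ?_⟩
  simp only [inner_conj_symm]
  rw [b.sum_inner_mul_inner]
  simp [f, Matrix.mul_apply, PiLp.inner_apply, mul_comm]

theorem main (n : ℕ) (A : Matrix (Fin (n+2)) (Fin (n+2)) ℂ) (hA : A.PosSemidef) :
      (A 0 0 * (A.submatrix (Fin.succAbove (0 : Fin (n+2))) (Fin.succAbove (0 : Fin (n+2)))).permanent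
        - A 0 1 * (A.submatrix (Fin.succAbove (0 : Fin (n+2))) (Fin.succAbove (1 : Fin (n+2)))).permanent
        - A 1 0 * (A.submatrix (Fin.succAbove (1 : Fin (n+2))) (Fin.succAbove (0 : Fin (n+2)))).permanent
        + A 1 1 * (A.submatrix (Fin.succAbove (1 : Fin (n+2))) (Fin.succAbove (1 : Fin (n+2)))).permanent).re
      ≤ 2 * (A.permanent).re := by
  obtain ⟨R, h0, hR⟩ := exists_R _ A hA
  have hs : ∀ (m : ℕ) (f g : Fin m → Fin (n + 2)), (A.submatrix f g).permanent
      = H (∏ i, L (R (f i))) (∏ j, L (R (g j))) := by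
    intro m f g
    rw [H_prod]; congr 1; ext i j; simp [hR]
  have z0 : ∀ k : Fin n, R 0 k.succ.succ = 0 := fun k => h0 _ _ (Fin.succ_pos _)
  have z1 : ∀ k : Fin n, R 1 k.succ.succ = 0 := fun k =>
    h0 _ _ (Fin.succ_lt_succ_iff.2 (Fin.succ_pos _))
  have z2 : R 0 1 = 0 := h0 _ _ Fin.zero_lt_one
  have l0 : L (R 0) = C (R 0 0) * X 0 := by simp [L, Fin.sum_univ_succ, z0, z2]
  have l1 : L (R 1) = C (R 1 0) * X 0 + C (R 1 1) * X 1 := by simp [L, Fin.sum_univ_succ, z1]
  set P : MvPolynomial (Fin (n + 2)) ℂ := ∏ i : Fin n, L (R i.succ.succ) with hP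
  have p0 : ∏ i, L (R (Fin.succAbove (0 : Fin (n + 2)) i))
      = C (R 1 0) * (X 0 * P) + C (R 1 1) * (X 1 * P) := by
    rw [Fin.prod_univ_succ]
    simp only [Fin.succAbove_zero, Fin.succ_zero_eq_one, l1]
    ring
  have p1 : ∏ i, L (R (Fin.succAbove (1 : Fin (n + 2)) i)) = C (R 0 0) * (X 0 * P) := by
    rw [Fin.prod_univ_succ]
    simp only [Fin.one_succAbove_zero, Fin.one_succAbove_succ, l0]
    ring
  have p2 : A.permanent = H (C (R 0 0) * (C (R 1 0) * (X 0 * (X 0 * P)) + C (R 1 1) * (X 0 * (X 1 * P))))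
      (C (R 0 0) * (C (R 1 0) * (X 0 * (X 0 * P)) + C (R 1 1) * (X 0 * (X 1 * P)))) := by
    have := hs _ id id
    rw [Matrix.submatrix_id_id] at this
    have e : ∏ i, L (R (id i)) = C (R 0 0) * (C (R 1 0) * (X 0 * (X 0 * P))
        + C (R 1 1) * (X 0 * (X 1 * P))) := by
      rw [Fin.prod_univ_succ, Fin.prod_univ_succ]
      simp only [id, Fin.succ_zero_eq_one, l0, l1]
      ring
    rw [this, e]
  have a00 : A 0 0 = starRingEnd ℂ (R 0 0) * R 0 0 := by simp [hR, Fin.sum_univ_succ, z0, z2]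
  have a01 : A 0 1 = starRingEnd ℂ (R 0 0) * R 1 0 := by simp [hR, Fin.sum_univ_succ, z0, z2]
  have a10 : A 1 0 = starRingEnd ℂ (R 1 0) * R 0 0 := by simp [hR, Fin.sum_univ_succ, z0, z2]
  have a11 : A 1 1 = starRingEnd ℂ (R 1 0) * R 1 0 + starRingEnd ℂ (R 1 1) * R 1 1 := by
    simp [hR, Fin.sum_univ_succ, z1]
  have key := mul_le_mul_of_nonneg_left (main_ineq 0 1 zero_ne_one (R 1 0) (R 1 1) P)
    (Complex.normSq_nonneg (R 0 0))
  rw [p2, H_C_left, H_C_right, H_self, ← mul_assoc, ← Complex.normSq_eq_conj_mul_self,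
    ← Complex.ofReal_mul, Complex.ofReal_re]
  refine le_trans (le_of_eq ?_) (key.trans (le_of_eq (by ring)))
  rw [← Complex.ofReal_re (_ * _)]
  congr 1
  rw [hs, hs, hs, hs, p0, p1, a00, a01, a10, a11]
  push_cast
  rw [← H_self, ← H_self, Complex.normSq_eq_conj_mul_self, Complex.normSq_eq_conj_mul_self]
  simp only [H_add_left, H_add_right, H_C_left, H_C_right]
  ring

end Pool.Agent.H.MP_7742c6_al
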